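import Pool.Agent.Q69.SAGen

/-!
# A generic interval map has all its special alpha-limit sets closed

`Q69.SA.sAlpha f x` is the special `α`-limit set of the question. The space
`C(unitInterval, unitInterval)` carries the topology of uniform convergence, and `residual` is the
filter of comeagre sets.
-/

namespace Pool.Agent.Results.MP_2df7e1_an.GenericallyClosed

open Q69.SA

/-- Q1, affirmative answer: the set of continuous maps `f : [0,1] → [0,1]` such that the special
`α`-limit set of every point is closed is comeagre. -/
theorem result :
    {f : C(unitInterval, unitInterval) | ∀ x, IsClosed (sAlpha f x)} ∈
      residual C(unitInterval, unitInterval) :=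
  Filter.mem_of_superset noWandering_residual fun f hf x => isClosed_sAlpha f.continuous hf x

end Pool.Agent.Results.MP_2df7e1_an.GenericallyClosed
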